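import Pool.Agent.Helper16.AZ.Stmts

open Finset Filter MeasureTheory Topology
open scoped ComplexConjugate InnerProductSpace

namespace Pool.Agent.Helper16.AZ

open Pool.Agent.Helper16.MD (MS PB Am RW Rich)
open UnitAddTorus (mFourier)

lemma ftr_fourier_add (n : ℤ) (x y : UnitAddCircle) :
    fourier n (x + y) = fourier n x * fourier n y := by
  simp only [fourier_apply, zsmul_add, AddCircle.toCircle_add, Circle.coe_mul]

lemma ftr_fourier_nsmul (n : ℤ) (p : ℕ) (x : UnitAddCircle) :
    fourier n (p • x) = fourier (p * n) x := by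
  simp only [fourier_apply]
  rw [mul_comm, mul_zsmul, natCast_zsmul]

lemma ftr_add {r : ℕ} (n : Fin r → ℤ) (x y : T r) :
    mFourier n (x + y) = mFourier n x * mFourier n y := by
  simp only [mFourier, ContinuousMap.coe_mk, Pi.add_apply, ftr_fourier_add,
    ← Finset.prod_mul_distrib]

lemma ftr_nsmul {r : ℕ} (n : Fin r → ℤ) (p : ℕ) (x : T r) :
    mFourier n (p • x) = mFourier (fun i => p * n i) x := by
  simp only [mFourier, ContinuousMap.coe_mk, Pi.smul_apply, ftr_fourier_nsmul]

lemma ftr_single {r : ℕ} (n : Fin r → ℤ) (i : Fin r) (y : UnitAddCircle) :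
    mFourier n (Pi.single i y : T r) = fourier (n i) y := by
  simp only [mFourier, ContinuousMap.coe_mk]
  rw [Finset.prod_eq_single i]
  · rw [Pi.single_eq_same]
  · intro j _ hj
    rw [Pi.single_eq_of_ne hj]
    simp
  · intro h
    exact absurd (Finset.mem_univ i) h

lemma ftr_mp {r : ℕ} (x : T r) (p : ℕ) (hp : 1 ≤ p) :
    MeasurePreserving (fun θ : T r => x + p • θ) (mm r) (mm r) := by
  have h1 : MeasurePreserving (nsmulAddMonoidHom (α := T r) p) (mm r) (mm r) := by
    apply AddMonoidHom.measurePreserving
    · exact continuous_const_smul p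
    · intro y
      refine ⟨fun i => DivisibleBy.div (y i) (p : ℤ), ?_⟩
      funext i
      have h := DivisibleBy.div_cancel (A := UnitAddCircle) (α := ℤ) (y i)
        (n := (p : ℤ)) (by exact_mod_cast (by omega : p ≠ 0))
      rw [natCast_zsmul] at h
      exact h
    · rfl
  have h2 : MeasurePreserving (fun θ : T r => x + θ) (mm r) (mm r) :=
    measurePreserving_add_left (mm r) x
  exact h2.comp h1

lemma ftr_one {r : ℕ} (n : Fin r → ℤ) (x : T r) : mFourier (-n) x * mFourier n x = 1 := by
  rw [← UnitAddTorus.mFourier_add, neg_add_cancel, UnitAddTorus.mFourier_zero]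
  rfl

theorem st_FTR : ST_FTR := by
  intro r F x p Z hF hp
  refine ⟨?_, ?_⟩
  · intro hdiv
    set Y : Fin r → ℤ := fun i => Z i / p with hY
    have hZ : Z = fun i => (p : ℤ) * Y i := by
      funext i
      rw [hY]
      exact (Int.mul_ediv_cancel' (hdiv i)).symm
    have hneg : -Z = fun i => (p : ℤ) * (-Y) i := by
      funext i
      rw [Pi.neg_apply, Pi.neg_apply]
      have := congrFun hZ i
      rw [this]
      ring
    have hpt : ∀ θ : T r, mFourier (-Z) θ * F (x + p • θ) =
        (fun η : T r => mFourier (-Y) η * F η) (x + p • θ) * mFourier Y x := by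
      intro θ
      show _ = mFourier (-Y) (x + p • θ) * F (x + p • θ) * mFourier Y x
      rw [ftr_add, ftr_nsmul, ← hneg]
      have := ftr_one Y x
      calc mFourier (-Z) θ * F (x + p • θ) = (mFourier (-Y) x * mFourier Y x) *
            (mFourier (-Z) θ * F (x + p • θ)) := by rw [this, one_mul]
        _ = _ := by ring
    unfold fc
    rw [integral_congr_ae (Eventually.of_forall hpt), integral_mul_const]
    congr 1
    have hmeas : AEStronglyMeasurable (fun η : T r => mFourier (-Y) η * F η)
        (Measure.map (fun θ : T r => x + p • θ) (mm r)) := by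
      apply Continuous.aestronglyMeasurable
      exact ((mFourier (-Y)).continuous).mul hF
    have h3 := integral_map (ftr_mp x p hp).measurable.aemeasurable hmeas
    rw [(ftr_mp x p hp).map_eq] at h3
    exact h3.symm
  · intro hnd
    push Not at hnd
    obtain ⟨i, hi⟩ := hnd
    set y : UnitAddCircle := (((1 : ℝ) / p : ℝ) : UnitAddCircle) with hy
    set s : T r := Pi.single i y with hs
    have hp0 : (p : ℝ) ≠ 0 := by
      have : 0 < p := hp
      positivity
    have hps : p • s = 0 := by
      rw [hs, ← Pi.single_smul]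
      have : p • y = 0 := by
        rw [hy, ← AddCircle.coe_nsmul]
        have : p • ((1 : ℝ) / p) = 1 := by
          rw [nsmul_eq_mul]
          field_simp
        rw [this]
        exact AddCircle.coe_period 1
      rw [this, Pi.single_zero]
    have hc : mFourier (-Z) s ≠ 1 := by
      rw [hs, ftr_single, hy, fourier_coe_apply]
      intro h
      rw [Complex.exp_eq_one_iff] at h
      obtain ⟨n, hn⟩ := h
      have hpi : (2 * Real.pi * Complex.I : ℂ) ≠ 0 := Complex.two_pi_I_ne_zero
      have hpc : (p : ℂ) ≠ 0 := by exact_mod_cast hp0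
      have h1 : (2 * Real.pi * Complex.I : ℂ) * (((-Z) i : ℤ) / (p : ℂ)) =
          (2 * Real.pi * Complex.I : ℂ) * n := by
        rw [mul_comm _ (n : ℂ), ← hn]
        push_cast
        ring
      have h2 := mul_left_cancel₀ hpi h1
      rw [div_eq_iff hpc] at h2
      have h3 : (-Z) i = n * p := by exact_mod_cast h2
      apply hi
      rw [Pi.neg_apply] at h3
      exact ⟨-n, by linarith [h3, mul_comm n (p : ℤ), neg_mul_comm n (p : ℤ)]⟩
    have hinv := integral_add_left_eq_self (μ := mm r)
      (fun θ : T r => mFourier (-Z) θ * F (x + p • θ)) s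
    have hpt : ∀ θ : T r, mFourier (-Z) (s + θ) * F (x + p • (s + θ)) =
        mFourier (-Z) s * (mFourier (-Z) θ * F (x + p • θ)) := by
      intro θ
      rw [ftr_add, smul_add, hps, zero_add]
      ring
    simp only [hpt] at hinv
    rw [integral_const_mul] at hinv
    unfold fc
    have h4 : (mFourier (-Z) s - 1) * ∫ θ, mFourier (-Z) θ * F (x + p • θ) ∂(mm r) = 0 := by
      rw [sub_mul, one_mul, hinv, sub_self]
    rcases mul_eq_zero.1 h4 with h5 | h5
    · exact absurd (sub_eq_zero.1 h5) hc
    · exact h5

end Pool.Agent.Helper16.AZ
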